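import Mathlib
import Pool.Agent.H42.Dind1

open Pool.Agent.H42.DindDefs

/-- A Hausdorff abelian topological group that is not d-independent while its square is. -/
theorem Pool.Agent.Results.MP_23f360_gt.No.result :
    ∃ (G : Type) (_ : AddCommGroup G) (_ : TopologicalSpace G),
      IsTopologicalAddGroup G ∧ T2Space G ∧ DInd (G × G) ∧ ¬ DInd G :=
  Pool.Agent.H42.Dind1.main
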